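import Pool.Agent.Y278.MK.Stm

/-!
# Hedgehogs of width zero in one direction
-/

set_option autoImplicit false

namespace Pool.Agent.Y168.MK

open Pool.Agent.Y278.MK
open MeasureTheory Set Real Filter Topology

/-- second coordinate of the boundary point -/
noncomputable def zz (h : ℝ → ℝ) (x : ℝ) : ℝ := h x * sin x + deriv h x * cos x

section
variable {g : ℝ → ℝ} (hg : C2P g)
include hg

theorem hd1 (x : ℝ) : HasDerivAt g (deriv g x) x :=
  (hg.1.differentiable (by norm_num) x).hasDerivAt

theorem cd1 : ContDiff ℝ 1 (deriv g) := by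
  have h : ContDiff ℝ (1 + 1) g := by
    rw [one_add_one_eq_two]
    exact hg.1
  exact (contDiff_succ_iff_deriv.1 h).2.2

theorem hd2 (x : ℝ) : HasDerivAt (deriv g) (deriv (deriv g) x) x :=
  ((cd1 hg).differentiable (by norm_num) x).hasDerivAt

theorem ct2 : Continuous (deriv (deriv g)) := (cd1 hg).continuous_deriv (by norm_num)

theorem ct0 : Continuous g := hg.1.continuous

theorem ct1 : Continuous (deriv g) := (cd1 hg).continuous

theorem ctr : Continuous (rho g) := by
  have : rho g = fun x => g x + deriv (deriv g) x := by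
    funext x
    rw [rho]
  rw [this]
  exact (ct0 hg).add (ct2 hg)

theorem per1 (x : ℝ) : deriv g (x + 2 * π) = deriv g x := by
  rw [← deriv_comp_add_const]
  congr 1
  funext y
  exact hg.2 y

theorem hdy (x : ℝ) : HasDerivAt (yy g) (-(rho g x * sin x)) x := by
  have h := ((hd1 hg x).mul (hasDerivAt_cos x)).sub ((hd2 hg x).mul (hasDerivAt_sin x))
  have e : yy g = (g * cos) - (deriv g * sin) := by
    funext y
    rw [yy]
    rfl
  rw [e]
  refine h.congr_deriv ?_
  rw [rho]
  ring

theorem hdz (x : ℝ) : HasDerivAt (zz g) (rho g x * cos x) x := by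
  have h := ((hd1 hg x).mul (hasDerivAt_sin x)).add ((hd2 hg x).mul (hasDerivAt_cos x))
  have e : zz g = (g * sin) + (deriv g * cos) := by
    funext y
    rw [zz]
    rfl
  rw [e]
  refine h.congr_deriv ?_
  rw [rho]
  ring

theorem cty : Continuous (yy g) :=
  continuous_iff_continuousAt.2 fun x => (hdy hg x).continuousAt

theorem ctz : Continuous (zz g) :=
  continuous_iff_continuousAt.2 fun x => (hdz hg x).continuousAt

theorem y_per (x : ℝ) : yy g (x + 2 * π) = yy g x := by
  rw [yy, yy, hg.2, per1 hg, cos_add_two_pi, sin_add_two_pi]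

theorem z_per (x : ℝ) : zz g (x + 2 * π) = zz g x := by
  rw [zz, zz, hg.2, per1 hg, cos_add_two_pi, sin_add_two_pi]

omit hg in
theorem g_eq (x : ℝ) : g x = yy g x * cos x + zz g x * sin x := by
  rw [yy, zz]
  have := sin_sq_add_cos_sq x
  linear_combination (-g x) * this

/-- the basic bound on an interval where the sine has a constant sign -/
theorem bdl {p q σ M a : ℝ} (hσ : ∀ x ∈ Icc p q, 0 ≤ σ * sin x) (hσ1 : |σ| = 1)
    (hM : ∀ x ∈ Icc p q, |rho g x| ≤ M) (hp : yy g p = a) :
    ∀ x ∈ Icc p q, |yy g x - a| ≤ M * (σ * (cos p - cos x)) := by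
  intro x hx
  have h := image_norm_le_of_norm_deriv_right_le_deriv_boundary (f := fun x => yy g x - a)
    (a := p) (b := q) (f' := fun x => -(rho g x * sin x))
    (((cty hg).sub continuous_const).continuousOn)
    (fun x _ => ((hdy hg x).sub_const a).hasDerivWithinAt)
    (B := fun x => M * (σ * (cos p - cos x))) (B' := fun x => M * (σ * sin x)) ?_ ?_ ?_ hx
  · exact h
  · simp [hp]
  · intro x
    have h1 := (((hasDerivAt_cos x).const_sub (cos p)).const_mul σ).const_mul M
    refine h1.congr_deriv ?_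
    ring
  · intro x hx
    have hx' : x ∈ Icc p q := ⟨hx.1, hx.2.le⟩
    rw [norm_neg, norm_mul, Real.norm_eq_abs, Real.norm_eq_abs]
    have h2 : |sin x| = σ * sin x := by
      rw [← abs_of_nonneg (hσ x hx'), abs_mul, hσ1, one_mul]
    rw [h2]
    exact mul_le_mul_of_nonneg_right (hM x hx') (hσ x hx')

theorem bdr {p q σ M a : ℝ} (hσ : ∀ x ∈ Icc p q, 0 ≤ σ * sin x) (hσ1 : |σ| = 1)
    (hM : ∀ x ∈ Icc p q, |rho g x| ≤ M) (hq : yy g q = a) :
    ∀ x ∈ Icc p q, |yy g x - a| ≤ M * (σ * (cos x - cos q)) := by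
  intro x hx
  have h := image_norm_le_of_norm_deriv_right_le_deriv_boundary (f := fun x => yy g (-x) - a)
    (a := -q) (b := -p) (f' := fun x => (rho g (-x) * sin (-x)))
    (((cty hg).comp continuous_neg).sub continuous_const).continuousOn
    (fun x _ => ?_)
    (B := fun x => M * (σ * (cos x - cos q))) (B' := fun x => M * (σ * sin (-x))) ?_ ?_ ?_
    (show -x ∈ Icc (-q) (-p) from ⟨neg_le_neg hx.2, neg_le_neg hx.1⟩)
  · simpa using h
  · have h3 := (HasDerivAt.scomp x (hdy hg (-x)) (hasDerivAt_neg x)).sub_const a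
    have h4 : HasDerivAt (fun x => yy g (-x) - a) (rho g (-x) * sin (-x)) x := by
      refine h3.congr_deriv ?_
      simp
    exact h4.hasDerivWithinAt
  · simp [hq]
  · intro x
    have h1 := (((hasDerivAt_cos x).sub_const (cos q)).const_mul σ).const_mul M
    refine h1.congr_deriv ?_
    rw [sin_neg]
  · intro x hx
    have hx' : -x ∈ Icc p q := ⟨by linarith [hx.2], by linarith [hx.1]⟩
    rw [norm_mul, Real.norm_eq_abs, Real.norm_eq_abs]
    have h2 : |sin (-x)| = σ * sin (-x) := by
      rw [← abs_of_nonneg (hσ _ hx'), abs_mul, hσ1, one_mul]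
    rw [h2]
    exact mul_le_mul_of_nonneg_right (hM _ hx') (hσ _ hx')

theorem bd (h0 : g 0 + g π = 0) : ∃ M : ℝ, 0 ≤ M ∧ ∀ x ∈ Icc 0 (2 * π),
    |yy g x - g 0| ≤ M * sin x ^ 2 := by
  obtain ⟨M, hM⟩ := (isCompact_Icc (a := (0 : ℝ)) (b := 2 * π)).exists_bound_of_continuousOn
    (ctr hg).continuousOn
  have hπ := pi_pos
  have hM0 : 0 ≤ M := (norm_nonneg _).trans (hM 0 ⟨le_rfl, by linarith⟩)
  refine ⟨M, hM0, ?_⟩
  have y0 : yy g 0 = g 0 := by rw [yy, cos_zero, sin_zero]; ring
  have yπ : yy g π = g 0 := by rw [yy, cos_pi, sin_pi]; linarith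
  have y2 : yy g (2 * π) = g 0 := by
    rw [← y0, ← y_per hg 0, zero_add]
  have key : ∀ x : ℝ, |yy g x - g 0| ≤ M * (1 - cos x) → |yy g x - g 0| ≤ M * (1 + cos x) →
      |yy g x - g 0| ≤ M * sin x ^ 2 := by
    intro x h1 h2
    have h3 : sin x ^ 2 = (1 - cos x) * (1 + cos x) := by
      have := sin_sq_add_cos_sq x
      linear_combination this
    have hc1 := cos_le_one x
    have hc2 := neg_one_le_cos x
    rw [h3]
    by_cases hc : 0 ≤ cos x
    · refine h1.trans (mul_le_mul_of_nonneg_left ?_ hM0)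
      nlinarith
    · refine h2.trans (mul_le_mul_of_nonneg_left ?_ hM0)
      push Not at hc
      nlinarith
  intro x hx
  by_cases hxπ : x ≤ π
  · have hs : ∀ x ∈ Icc 0 π, 0 ≤ (1 : ℝ) * sin x := by
      intro x hx
      rw [one_mul]
      exact sin_nonneg_of_nonneg_of_le_pi hx.1 hx.2
    have hM' : ∀ x ∈ Icc 0 π, |rho g x| ≤ M := fun x hx => hM x ⟨hx.1, by linarith [hx.2]⟩
    have h1 := bdl hg hs abs_one hM' y0 x ⟨hx.1, hxπ⟩
    have h2 := bdr hg hs abs_one hM' yπ x ⟨hx.1, hxπ⟩
    rw [cos_zero] at h1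
    rw [cos_pi] at h2
    exact key x (h1.trans_eq (by ring)) (h2.trans_eq (by ring))
  · push Not at hxπ
    have hs : ∀ x ∈ Icc π (2 * π), 0 ≤ (-1 : ℝ) * sin x := by
      intro x hx
      have h3 := sin_nonneg_of_nonneg_of_le_pi (x := x - π) (by linarith [hx.1])
        (by linarith [hx.2])
      rw [sin_sub_pi] at h3
      linarith
    have hM' : ∀ x ∈ Icc π (2 * π), |rho g x| ≤ M := fun x hx => hM x ⟨by linarith [hx.1], hx.2⟩
    have hone : |(-1 : ℝ)| = 1 := by norm_num
    have h1 := bdl hg hs hone hM' yπ x ⟨hxπ.le, hx.2⟩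
    have h2 := bdr hg hs hone hM' y2 x ⟨hxπ.le, hx.2⟩
    rw [cos_pi] at h1
    rw [cos_two_pi] at h2
    exact key x (h2.trans_eq (by ring)) (h1.trans_eq (by ring))

/-- the main identity -/
theorem ident (h0 : g 0 + g π = 0) (E N Φ Φ' : ℝ → ℝ) (C B δ : ℝ) (hδ : 0 < δ)
    (hE : Continuous E) (hN : ∀ s, HasDerivAt N (E s) s) (hΦ : ∀ s, HasDerivAt Φ (Φ' s) s)
    (hrel : ∀ s, E s * s + N s = Φ' s + C) (hB : ∀ s, |s - g 0| ≤ δ → |Φ s| ≤ B * (s - g 0) ^ 2) :
    ContinuousOn (fun x => Φ (yy g x) / sin x ^ 2) (Icc 0 (2 * π)) ∧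
    ∫ x in (0 : ℝ)..(2 * π), E (yy g x) * (g x * rho g x) =
      -∫ x in (0 : ℝ)..(2 * π), Φ (yy g x) / sin x ^ 2 := by
  obtain ⟨M, hM0, hM⟩ := bd hg h0
  have hπ := pi_pos
  have hΦc : Continuous Φ := continuous_iff_continuousAt.2 fun s => (hΦ s).continuousAt
  have hNc : Continuous N := continuous_iff_continuousAt.2 fun s => (hN s).continuousAt
  have hy := cty hg
  have hB0 : 0 ≤ B := by
    have h1 := hB (g 0 + δ) (by rw [add_sub_cancel_left, abs_of_pos hδ])
    rw [add_sub_cancel_left] at h1
    have h2 := (abs_nonneg _).trans h1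
    by_contra hcon
    push Not at hcon
    have := mul_neg_of_neg_of_pos hcon (pow_pos hδ 2)
    linarith
  have hcq : ContinuousOn (fun x => Φ (yy g x) / sin x ^ 2) (Icc 0 (2 * π)) := by
    intro x hx
    by_cases hs : sin x = 0
    · have hyx : yy g x = g 0 := by
        have h1 := hM x hx
        rw [hs] at h1
        have h2 : |yy g x - g 0| ≤ 0 := by simpa using h1
        exact sub_eq_zero.1 (abs_eq_zero.1 (le_antisymm h2 (abs_nonneg _)))
      have hq0 : Φ (yy g x) / sin x ^ 2 = 0 := by rw [hs]; simp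
      rw [ContinuousWithinAt, hq0]
      refine squeeze_zero_norm' (a := fun t => B * M * |yy g t - g 0|) ?_ ?_
      · have h3 : ∀ᶠ t in 𝓝[Icc 0 (2 * π)] x, |yy g t - g 0| ≤ δ := by
          have h4 : Tendsto (fun t => |yy g t - g 0|) (𝓝[Icc 0 (2 * π)] x) (𝓝 0) := by
            have h5 : Continuous fun t => |yy g t - g 0| := (hy.sub continuous_const).abs
            have h6 := (h5.tendsto x).mono_left (nhdsWithin_le_nhds (s := Icc 0 (2 * π)))
            rw [hyx, sub_self, abs_zero] at h6
            exact h6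
          filter_upwards [h4.eventually (gt_mem_nhds hδ)] with t ht
          exact ht.le
        filter_upwards [h3, self_mem_nhdsWithin] with t ht ht2
        have h7 := hB _ ht
        have h8 := hM t ht2
        rw [Real.norm_eq_abs, abs_div, abs_of_nonneg (sq_nonneg (sin t))]
        by_cases hst : sin t = 0
        · rw [hst]
          simp only [ne_eq, OfNat.ofNat_ne_zero, not_false_eq_true, zero_pow, div_zero]
          positivity
        · have h9 : 0 < sin t ^ 2 := by positivity
          rw [div_le_iff₀ h9]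
          refine h7.trans ?_
          have h10 : (yy g t - g 0) ^ 2 ≤ |yy g t - g 0| * (M * sin t ^ 2) := by
            rw [← sq_abs, sq]
            exact mul_le_mul_of_nonneg_left h8 (abs_nonneg _)
          calc B * (yy g t - g 0) ^ 2 ≤ B * (|yy g t - g 0| * (M * sin t ^ 2)) :=
                mul_le_mul_of_nonneg_left h10 hB0
            _ = B * M * |yy g t - g 0| * sin t ^ 2 := by ring
      · have h5 : Continuous fun t => B * M * |yy g t - g 0| :=
          continuous_const.mul (hy.sub continuous_const).abs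
        have h6 := (h5.tendsto x).mono_left (nhdsWithin_le_nhds (s := Icc 0 (2 * π)))
        rw [hyx, sub_self, abs_zero, mul_zero] at h6
        exact h6
    · have h9 : sin x ^ 2 ≠ 0 := pow_ne_zero 2 hs
      exact ((hΦc.comp hy).continuousAt.div ((continuous_sin.pow 2).continuousAt) h9).continuousWithinAt
  refine ⟨hcq, ?_⟩
  have hcg : Continuous fun x => E (yy g x) * (g x * rho g x) :=
    (hE.comp hy).mul ((ct0 hg).mul (ctr hg))
  have hle : (0 : ℝ) ≤ 2 * π := by linarith
  have hint : IntervalIntegrable (fun x => E (yy g x) * (g x * rho g x) + Φ (yy g x) / sin x ^ 2)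
      volume 0 (2 * π) := by
    refine ContinuousOn.intervalIntegrable ?_
    rw [uIcc_of_le hle]
    exact hcg.continuousOn.add hcq
  have hFTC := MeasureTheory.integral_eq_of_hasDerivAt_off_countable
    (fun x => C * zz g x - zz g x * N (yy g x) - cos x / sin x * Φ (yy g x))
    (fun x => E (yy g x) * (g x * rho g x) + Φ (yy g x) / sin x ^ 2)
    (a := 0) (b := 2 * π) (s := Set.range fun n : ℤ => (n : ℝ) * π) (Set.countable_range _)
    ?_ ?_ hint
  · have hend : ∀ x, sin x = 0 → cos x / sin x * Φ (yy g x) = 0 := by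
      intro x hx
      rw [hx, div_zero, zero_mul]
    have e0 := hend 0 sin_zero
    have e2 := hend (2 * π) sin_two_pi
    have y2 : yy g (2 * π) = yy g 0 := by rw [← y_per hg 0, zero_add]
    have z2 : zz g (2 * π) = zz g 0 := by rw [← z_per hg 0, zero_add]
    have h11 : ∫ x in (0 : ℝ)..(2 * π),
        (E (yy g x) * (g x * rho g x) + Φ (yy g x) / sin x ^ 2) = 0 := by
      rw [hFTC]
      rw [e0, e2, y2, z2]
      ring
    rw [intervalIntegral.integral_add (hcg.intervalIntegrable _ _) (by
      refine ContinuousOn.intervalIntegrable ?_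
      rw [uIcc_of_le hle]
      exact hcq)] at h11
    linarith
  · rw [uIcc_of_le hle]
    have e1 : (fun x => C * zz g x - zz g x * N (yy g x) - cos x / sin x * Φ (yy g x)) =
        fun x => C * zz g x - zz g x * N (yy g x) - cos x * sin x * (Φ (yy g x) / sin x ^ 2) := by
      funext x
      by_cases hs : sin x = 0
      · rw [hs]
        simp
      · field_simp
    rw [e1]
    have hz := ctz hg
    exact ((continuous_const.mul hz).sub (hz.mul (hNc.comp hy))).continuousOn.sub
      (((continuous_cos.mul continuous_sin).continuousOn).mul hcq)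
  · rintro x ⟨-, hx⟩
    have hs : sin x ≠ 0 := by
      intro hs
      rw [sin_eq_zero_iff] at hs
      exact hx hs
    have d1 := hdz hg x
    have d2 := hdy hg x
    have d3 : HasDerivAt (fun x => N (yy g x)) (E (yy g x) * (-(rho g x * sin x))) x :=
      (hN (yy g x)).comp x d2
    have d4 : HasDerivAt (fun x => Φ (yy g x)) (Φ' (yy g x) * (-(rho g x * sin x))) x :=
      (hΦ (yy g x)).comp x d2
    have d5 := (hasDerivAt_cos x).div (hasDerivAt_sin x) hs
    have d6 := ((d1.const_mul C).sub (d1.mul d3)).sub (d5.mul d4)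
    refine d6.congr_deriv ?_
    have hr := hrel (yy g x)
    have hgx := g_eq (g := g) x
    have hsc := sin_sq_add_cos_sq x
    have e3 : (-sin x * sin x - cos x * cos x) / sin x ^ 2 = -(1 / sin x ^ 2) := by
      rw [show -sin x * sin x - cos x * cos x = -1 by linear_combination -hsc]
      ring
    have e4 : (cos / sin) x * (Φ' (yy g x) * -(rho g x * sin x)) =
        -(cos x * Φ' (yy g x) * rho g x) := by
      rw [Pi.div_apply]
      field_simp
    rw [e3, e4, hgx]
    linear_combination (-(rho g x) * cos x) * hr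

/-- rigidity -/
theorem rigid (hy : ∀ x ∈ Icc 0 (2 * π), yy g x = g 0) :
    ∃ a b : ℝ, ∀ θ, g θ = a * cos θ + b * sin θ := by
  have hπ := pi_pos
  have hper : Function.Periodic (yy g) (2 * π) := y_per hg
  have h1 : ∀ x, yy g x = g 0 := by
    intro x
    obtain ⟨y, hy1, hy2⟩ := hper.exists_mem_Ico₀ (by linarith) x
    rw [hy2]
    exact hy y ⟨hy1.1, hy1.2.le⟩
  have h2 : ∀ x, rho g x * sin x = 0 := by
    intro x
    have h3 := (hdy hg x).deriv
    have h4 : yy g = fun _ => g 0 := funext h1
    rw [h4, deriv_const] at h3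
    linarith
  have h5 : ∀ x, rho g x = 0 := by
    intro x
    by_cases hs : sin x = 0
    · have hc : cos x ≠ 0 := by
        intro hc
        have := sin_sq_add_cos_sq x
        rw [hs, hc] at this
        norm_num at this
      have h6 := (hasDerivAt_sin x).eventually_ne (c := 0) hc
      have h7 : Tendsto (rho g) (𝓝[≠] x) (𝓝 (rho g x)) :=
        ((ctr hg).tendsto x).mono_left nhdsWithin_le_nhds
      have h8 : Tendsto (rho g) (𝓝[≠] x) (𝓝 0) := by
        refine tendsto_const_nhds.congr' ?_
        filter_upwards [h6] with t ht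
        exact ((mul_eq_zero.1 (h2 t)).resolve_right ht).symm
      exact tendsto_nhds_unique h7 h8
    · exact (mul_eq_zero.1 (h2 x)).resolve_right hs
  have h9 : ∀ x, zz g x = zz g 0 := by
    intro x
    refine is_const_of_deriv_eq_zero (fun t => (hdz hg t).differentiableAt) ?_ x 0
    intro t
    rw [(hdz hg t).deriv, h5, zero_mul]
  refine ⟨g 0, zz g 0, fun θ => ?_⟩
  rw [g_eq (g := g) θ, h1, h9]

theorem posi (h0 : g 0 + g π = 0) (hne : ¬ ∃ a b : ℝ, ∀ θ, g θ = a * cos θ + b * sin θ)
    (Φ : ℝ → ℝ) (hpos : ∀ s, s ≠ g 0 → 0 < Φ s) (hz : Φ (g 0) = 0)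
    (hc : ContinuousOn (fun x => Φ (yy g x) / sin x ^ 2) (Icc 0 (2 * π))) :
    0 < ∫ x in (0 : ℝ)..(2 * π), Φ (yy g x) / sin x ^ 2 := by
  obtain ⟨M, hM0, hM⟩ := bd hg h0
  have hπ := pi_pos
  refine intervalIntegral.integral_pos (by linarith) hc ?_ ?_
  · intro x _
    refine div_nonneg ?_ (sq_nonneg _)
    by_cases h : yy g x = g 0
    · rw [h, hz]
    · exact (hpos _ h).le
  · by_contra hcon
    push Not at hcon
    refine hne (rigid hg fun x hx => ?_)
    by_contra h
    have hs : sin x ≠ 0 := by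
      intro hs
      have h1 := hM x hx
      rw [hs] at h1
      have h2 : |yy g x - g 0| ≤ 0 := by simpa using h1
      exact h (sub_eq_zero.1 (abs_eq_zero.1 (le_antisymm h2 (abs_nonneg _))))
    have h3 := hcon x hx
    have h4 : 0 < Φ (yy g x) / sin x ^ 2 := div_pos (hpos _ h) (by positivity)
    linarith

end

/-- real form of `EE` -/
noncomputable def ER (k s : ℝ) : ℝ := ∫ r in (0 : ℝ)..1, r * exp (r * (k * s))

theorem EE_ofReal (x : ℝ) : EE (x : ℂ) = ((∫ r in (0 : ℝ)..1, r * exp (r * x) : ℝ) : ℂ) := by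
  rw [EE, ← intervalIntegral.integral_ofReal]
  refine intervalIntegral.integral_congr fun r _ => ?_
  push_cast
  rfl

/-- the primitive of `ER` -/
noncomputable def NR (k s : ℝ) : ℝ := (∫ r in (0 : ℝ)..1, exp (r * (k * s))) / k - 1 / k

theorem NR_deriv (k : ℝ) (hk : k ≠ 0) (s : ℝ) : HasDerivAt (NR k) (ER k s) s := by
  have h := intervalIntegral.hasDerivAt_integral_of_dominated_loc_of_deriv_le (𝕜 := ℝ)
    (μ := volume) (a := 0) (b := 1)
    (F := fun s r => exp (r * (k * s))) (F' := fun s r => exp (r * (k * s)) * (r * k)) (x₀ := s)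
    (s := Metric.ball s 1) (bound := fun _ => exp (|k| * (|s| + 1)) * |k|)
    (Metric.ball_mem_nhds s one_pos) ?_ ?_ ?_ ?_ ?_ ?_
  · have h2 := (h.2.div_const k).sub_const (1 / k)
    refine h2.congr_deriv ?_
    rw [ER, div_eq_iff hk, ← intervalIntegral.integral_mul_const]
    refine intervalIntegral.integral_congr fun r _ => ?_
    ring
  · exact Eventually.of_forall fun s => (by fun_prop : Continuous fun r : ℝ =>
      exp (r * (k * s))).aestronglyMeasurable
  · exact (by fun_prop : Continuous fun r : ℝ => exp (r * (k * s))).intervalIntegrable _ _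
  · exact (by fun_prop : Continuous fun r : ℝ =>
      exp (r * (k * s)) * (r * k)).aestronglyMeasurable
  · refine Eventually.of_forall fun r hr x hx => ?_
    rw [uIoc_of_le zero_le_one] at hr
    rw [norm_mul, Real.norm_eq_abs, Real.norm_eq_abs, abs_of_pos (exp_pos _), abs_mul]
    have hx1 : |x| ≤ |s| + 1 := by
      have h3 : |x - s| < 1 := by
        rw [← Real.dist_eq]
        exact hx
      have h4 := abs_add_le (x - s) s
      rw [sub_add_cancel] at h4
      linarith
    have hr1 : |r| ≤ 1 := by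
      rw [abs_of_pos hr.1]
      exact hr.2
    refine mul_le_mul (exp_le_exp.2 ?_) ?_ (by positivity) (exp_pos _).le
    · refine (le_abs_self _).trans ?_
      rw [abs_mul, abs_mul]
      calc |r| * (|k| * |x|) ≤ 1 * (|k| * (|s| + 1)) := by
            refine mul_le_mul hr1 (mul_le_mul_of_nonneg_left hx1 (abs_nonneg _)) (by positivity)
              zero_le_one
        _ = _ := one_mul _
    · calc |r| * |k| ≤ 1 * |k| := mul_le_mul_of_nonneg_right hr1 (abs_nonneg _)
        _ = _ := one_mul _
  · exact continuous_const.intervalIntegrable _ _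
  · refine Eventually.of_forall fun r _ x _ => ?_
    have h5 : HasDerivAt (fun x : ℝ => r * (k * x)) (r * k) x := by
      have := ((hasDerivAt_id x).const_mul k).const_mul r
      refine this.congr_deriv ?_
      ring
    exact h5.exp

theorem ER_cont (k : ℝ) : Continuous (ER k) := by
  have h : Continuous (fun p : ℝ × ℝ => p.2 * exp (p.2 * (k * p.1))) := by fun_prop
  exact intervalIntegral.continuous_parametric_intervalIntegral_of_continuous' h 0 1

theorem ER_rel (k : ℝ) (hk : k ≠ 0) (s : ℝ) :
    ER k s * s + NR k s = (exp (k * s) - 1) / k := by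
  have h1 : ∫ r in (0 : ℝ)..1, (exp (r * (k * s)) + r * (exp (r * (k * s)) * (k * s))) =
      exp (k * s) := by
    have h2 := intervalIntegral.integral_eq_sub_of_hasDerivAt (a := 0) (b := 1)
      (f := fun r => r * exp (r * (k * s)))
      (f' := fun r => exp (r * (k * s)) + r * (exp (r * (k * s)) * (k * s))) ?_ ?_
    · rw [h2]
      simp
    · intro r _
      have h3 : HasDerivAt (fun r : ℝ => r * (k * s)) (k * s) r := by
        have := (hasDerivAt_id r).mul_const (k * s)
        refine this.congr_deriv ?_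
        ring
      have h4 := (hasDerivAt_id r).mul h3.exp
      refine h4.congr_deriv ?_
      simp
    · exact (by fun_prop : Continuous fun r : ℝ =>
        exp (r * (k * s)) + r * (exp (r * (k * s)) * (k * s))).intervalIntegrable _ _
  rw [intervalIntegral.integral_add
    ((by fun_prop : Continuous fun r : ℝ => exp (r * (k * s))).intervalIntegrable _ _)
    ((by fun_prop : Continuous fun r : ℝ =>
      r * (exp (r * (k * s)) * (k * s))).intervalIntegrable _ _)] at h1
  have h5 : ∫ r in (0 : ℝ)..1, r * (exp (r * (k * s)) * (k * s)) = ER k s * (k * s) := by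
    rw [ER, ← intervalIntegral.integral_mul_const]
    refine intervalIntegral.integral_congr fun r _ => ?_
    ring
  rw [h5] at h1
  rw [NR]
  obtain ⟨I, hI⟩ : ∃ I, I = ∫ r in (0 : ℝ)..1, exp (r * (k * s)) := ⟨_, rfl⟩
  rw [← hI] at h1 ⊢
  rw [← h1]
  field_simp
  ring

theorem zw_thm : S_ZW := by
  intro g hg h0 hne
  constructor
  · -- area
    obtain ⟨hc, hi⟩ := ident hg h0 (fun _ => 1) (fun s => s) (fun s => (s - g 0) ^ 2)
      (fun s => 2 * (s - g 0)) (2 * g 0) 1 1 one_pos continuous_const (fun s => hasDerivAt_id s)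
      (fun s => by
        have := ((hasDerivAt_id s).sub_const (g 0)).pow 2
        refine this.congr_deriv ?_
        simp) (fun s => by ring) (fun s _ => by rw [one_mul, abs_of_nonneg (sq_nonneg _)])
    have hp := posi hg h0 hne (fun s => (s - g 0) ^ 2)
      (fun s hs => by
        have : s - g 0 ≠ 0 := sub_ne_zero.2 hs
        positivity) (by simp) hc
    rw [area]
    simp only [one_mul] at hi
    rw [hi]
    linarith
  · intro κ hκ
    have hexp : ∀ x : ℝ, x ≠ 0 → 0 < exp x - 1 - x := fun x hx => by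
      have := add_one_lt_exp hx
      linarith
    have hφ : ∀ s, (exp (κ * s) - exp (κ * g 0) - κ * exp (κ * g 0) * (s - g 0)) / κ ^ 2 =
        exp (κ * g 0) / κ ^ 2 * (exp (κ * (s - g 0)) - 1 - κ * (s - g 0)) := by
      intro s
      have : exp (κ * s) = exp (κ * g 0) * exp (κ * (s - g 0)) := by
        rw [← exp_add]
        congr 1
        ring
      rw [this]
      ring
    have hκa : 0 < |κ| := abs_pos.2 hκ
    obtain ⟨hc, hi⟩ := ident hg h0 (ER κ) (NR κ)
      (fun s => (exp (κ * s) - exp (κ * g 0) - κ * exp (κ * g 0) * (s - g 0)) / κ ^ 2)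
      (fun s => (exp (κ * s) - exp (κ * g 0)) / κ) ((exp (κ * g 0) - 1) / κ) (exp (κ * g 0))
      (1 / |κ|) (by positivity) (ER_cont κ) (NR_deriv κ hκ)
      (fun s => by
        have h1 : HasDerivAt (fun x : ℝ => κ * x) κ s := by
          have := (hasDerivAt_id s).const_mul κ
          refine this.congr_deriv ?_
          ring
        have h2 := ((h1.exp.sub_const (exp (κ * g 0))).sub
          (((hasDerivAt_id s).sub_const (g 0)).const_mul (κ * exp (κ * g 0)))).div_const (κ ^ 2)
        refine h2.congr_deriv ?_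
        field_simp)
      (fun s => by
        rw [ER_rel κ hκ]
        ring)
      (fun s hs => by
        have h1 : |κ * (s - g 0)| ≤ 1 := by
          rw [abs_mul]
          calc |κ| * |s - g 0| ≤ |κ| * (1 / |κ|) := mul_le_mul_of_nonneg_left hs (abs_nonneg _)
            _ = 1 := by field_simp
        have h2 := abs_exp_sub_one_sub_id_le h1
        rw [hφ, abs_mul, abs_of_nonneg (by positivity : 0 ≤ exp (κ * g 0) / κ ^ 2)]
        calc exp (κ * g 0) / κ ^ 2 * |exp (κ * (s - g 0)) - 1 - κ * (s - g 0)| ≤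
            exp (κ * g 0) / κ ^ 2 * (κ * (s - g 0)) ^ 2 :=
              mul_le_mul_of_nonneg_left h2 (by positivity)
          _ = _ := by field_simp)
    have hp := posi hg h0 hne
      (fun s => (exp (κ * s) - exp (κ * g 0) - κ * exp (κ * g 0) * (s - g 0)) / κ ^ 2)
      (fun s hs => by
        have h1 : κ * (s - g 0) ≠ 0 := mul_ne_zero hκ (sub_ne_zero.2 hs)
        rw [hφ]
        exact mul_pos (by positivity) (hexp _ h1)) (by simp) hc
    have h3 : ∫ θ in (0 : ℝ)..(2 * π), EE ((κ * yy g θ : ℝ) : ℂ) * (g θ * rho g θ) =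
        ((∫ θ in (0 : ℝ)..(2 * π), ER κ (yy g θ) * (g θ * rho g θ) : ℝ) : ℂ) := by
      rw [← intervalIntegral.integral_ofReal]
      refine intervalIntegral.integral_congr fun θ _ => ?_
      rw [EE_ofReal, ER]
      push_cast
      rfl
    rw [h3, hi, Complex.ofReal_ne_zero]
    exact neg_ne_zero.2 hp.ne'

end Pool.Agent.Y168.MK
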